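import Pool.Agent.Helper76.PC.Stmts

set_option autoImplicit false

/-! MP_c33217_co: soundness of the test for 6-cycles through v. -/

namespace Pool.Agent.Helper76.PC

theorem nhex_mem (h2 : ST_FULL) {G : Gr} {φ : ℕ → ℕ} {f : Bool} {K : Cfg} (E : Emb G φ f K)
    {r : Vx} (hr : r ∈ K) (hf : full r = true) {x : ℕ} (hx : x ∈ G.N (φ r.id)) :
    ∃ y ∈ r.nb, φ y = x :=
  (((h2 G φ f K E r hr).2.2 hf).2.2 x).1 hx

theorem nhex_nadj (h1 : ST_LST) (h3 : ST_NADJ) {G : Gr} {φ : ℕ → ℕ} {f : Bool} {K : Cfg}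
    (E : Emb G φ f K) {x y : ℕ} (h : nonadj K x y = true) : φ y ∉ G.N (φ x) := by
  have hg := h1.2.2.2.2.2.2.1
  unfold nonadj at h
  split at h
  · rename_i rx ry hx hy
    obtain ⟨hxK, hxi⟩ := hg _ _ _ hx
    obtain ⟨hyK, hyi⟩ := hg _ _ _ hy
    have := h3 G φ f K E rx hxK ry hyK h
    rwa [hxi, hyi] at this
  · exact absurd h (by simp)

theorem st_NHEX (h1 : ST_LST) (h2 : ST_FULL) (h3 : ST_NADJ) : ST_NHEX := by
  intro G φ f K E rv hv ra ha rb hb hN hab h x y z hxa hxv hzb hzv hxz hyx hyz hya hyb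
  have hrem := h1.2.2.1
  have hall := h1.2.2.2.2.1
  have hg := h1.2.2.2.2.2.2.1
  unfold noHexA at h
  rw [Bool.and_eq_true, hall] at h
  obtain ⟨hfa, h⟩ := h
  obtain ⟨x0, hx0, rfl⟩ := nhex_mem h2 E ha hfa hxa
  have hx0v : x0 ≠ rv.id := by
    intro e
    exact hxv (by rw [e])
  have h := h x0 ((hrem _ _ _).2 ⟨hx0, hx0v⟩)
  split at h
  · exact absurd h (by simp)
  rename_i rx hrx
  obtain ⟨hrxK, hrxi⟩ := hg _ _ _ hrx
  have hzy : z ∈ G.N y := G.symm _ _ hyz
  have hxy : φ x0 ∈ G.N y := G.symm _ _ hyx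
  have hbz : φ rb.id ∈ G.N z := G.symm _ _ hzb
  rw [Bool.or_eq_true] at h
  rcases h with h | h
  · rw [Bool.and_eq_true, hall] at h
    obtain ⟨hfx, h⟩ := h
    rw [← hrxi] at hyx
    obtain ⟨y0, hy0, rfl⟩ := nhex_mem h2 E hrxK hfx hyx
    have hy0a : y0 ≠ ra.id := by
      intro e
      exact hya (by rw [e])
    have h := h y0 ((hrem _ _ _).2 ⟨hy0, hy0a⟩)
    rw [Bool.or_eq_true] at h
    rcases h with h | h
    · rw [Bool.and_eq_true, hall] at h
      obtain ⟨hfb, h⟩ := h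
      obtain ⟨z0, hz0, rfl⟩ := nhex_mem h2 E hb hfb hzb
      have hz0v : z0 ≠ rv.id := by
        intro e
        exact hzv (by rw [e])
      have h := h z0 ((hrem _ _ _).2 ⟨hz0, hz0v⟩)
      rw [Bool.or_eq_true] at h
      rcases h with h | h
      · exact hxz (by rw [Nat.eq_of_beq_eq_true h])
      · exact nhex_nadj h1 h3 E h hyz
    · split at h
      · exact absurd h (by simp)
      rename_i ry hry
      obtain ⟨hryK, hryi⟩ := hg _ _ _ hry
      rw [Bool.and_eq_true, hall] at h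
      obtain ⟨hfy, h⟩ := h
      rw [← hryi] at hzy
      obtain ⟨z0, hz0, rfl⟩ := nhex_mem h2 E hryK hfy hzy
      have h := h z0 hz0
      rw [Bool.or_eq_true] at h
      rcases h with h | h
      · exact hxz (by rw [Nat.eq_of_beq_eq_true h])
      · exact nhex_nadj h1 h3 E h hbz
  · rw [Bool.and_eq_true, hall] at h
    obtain ⟨hfb, h⟩ := h
    obtain ⟨z0, hz0, rfl⟩ := nhex_mem h2 E hb hfb hzb
    have hz0v : z0 ≠ rv.id := by
      intro e
      exact hzv (by rw [e])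
    have h := h z0 ((hrem _ _ _).2 ⟨hz0, hz0v⟩)
    rw [Bool.or_eq_true] at h
    rcases h with h | h
    · rw [Bool.and_eq_true, hall] at h
      obtain ⟨hfx, h⟩ := h
      rw [← hrxi] at hyx
      obtain ⟨y0, hy0, rfl⟩ := nhex_mem h2 E hrxK hfx hyx
      have hy0a : y0 ≠ ra.id := by
        intro e
        exact hya (by rw [e])
      have h := h y0 ((hrem _ _ _).2 ⟨hy0, hy0a⟩)
      exact nhex_nadj h1 h3 E h hzy
    · split at h
      · exact absurd h (by simp)
      rename_i rz hrz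
      obtain ⟨hrzK, hrzi⟩ := hg _ _ _ hrz
      rw [Bool.and_eq_true, hall] at h
      obtain ⟨hfz, h⟩ := h
      rw [← hrzi] at hyz
      obtain ⟨y0, hy0, rfl⟩ := nhex_mem h2 E hrzK hfz hyz
      have hy0b : y0 ≠ rb.id := by
        intro e
        exact hyb (by rw [e])
      have h := h y0 ((hrem _ _ _).2 ⟨hy0, hy0b⟩)
      exact nhex_nadj h1 h3 E h hxy

end Pool.Agent.Helper76.PC
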